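import Pool.Agent.J4H43.MW.Stm
import Pool.Agent.Helper771.FreeLieGrad

set_option autoImplicit false

namespace Pool.Agent.J4H80.MW

open Polynomial Pool.Agent.Helper392_GT Pool.Agent.J4H43.FR Pool.Agent.J4H43.SW
open Pool.Agent.J4H43.MW Finset

attribute [local instance 100] LieRing.ofAssociativeRing

/-- homogeneous parts of Lie elements are Lie elements -/
theorem t_HL : S_HL := by
  intro k _ P
  refine Pool.Agent.Helper771.FreeLieGrad.free_induction (K := k) (Y := ℕ)
    (P := fun P => ∀ d, ∃ P' : FreeLieAlgebra k ℕ, toN k P' = hc d (toN k P)) ?_ ?_ ?_ ?_ ?_ P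
  · intro y d
    refine ⟨if d = 1 then FreeLieAlgebra.of k y else 0, ?_⟩
    have h : toN k (FreeLieAlgebra.of k y) = FreeAlgebra.ι k y :=
      FreeLieAlgebra.lift_of_apply (R := k) (L := BB k) _ y
    rw [h, hc_ι]
    split_ifs with hd
    · exact h
    · exact map_zero _
  · intro d
    exact ⟨0, by simp⟩
  · intro a b ha hb d
    obtain ⟨a', ha'⟩ := ha d
    obtain ⟨b', hb'⟩ := hb d
    exact ⟨a' + b', by rw [map_add, map_add, map_add, ha', hb']⟩
  · intro c a ha d
    obtain ⟨a', ha'⟩ := ha d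
    exact ⟨c • a', by rw [map_smul, map_smul, map_smul, ha']⟩
  · intro a b ha hb d
    choose fa hfa using ha
    choose fb hfb using hb
    refine ⟨∑ p ∈ antidiagonal d, ⁅fa p.1, fb p.2⁆, ?_⟩
    rw [map_sum, LieHom.map_lie, LieRing.of_associative_ring_bracket, map_sub, hc_mul, hc_mul,
      ← Finset.Nat.sum_antidiagonal_swap (f := fun p => hc p.1 (toN k b) * hc p.2 (toN k a)),
      ← Finset.sum_sub_distrib]
    refine Finset.sum_congr rfl fun p _ => ?_
    rw [LieHom.map_lie, LieRing.of_associative_ring_bracket, hfa, hfb]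
    rfl

end Pool.Agent.J4H80.MW
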